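import Mathlib

/-!
# ZD: the interpolation determinant, general form

Rows: a finite type `S` of points. Columns: integer valued functions `f0 j` (`j : J0`, exact) and `f1 j` (`j : J1`). If the
columns are linearly independent and modulo `p ^ e p j` the column `f1 j` is a combination of the exact columns, for
primes `p ∈ Ps`, then `∑ e p j log p` is at most the logarithm of the trivial upper bound of the determinant.
-/

set_option autoImplicit false

namespace Pool.Agent.Helper89.ZD

open Finset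

/-- Independent functions on a finite set have a nonzero minor. -/
theorem exists_minor {S J : Type} [Fintype J] [DecidableEq J] (f : J → S → ℚ)
    (hli : ∀ a : J → ℚ, (∀ s, ∑ j, a j * f j s = 0) → a = 0) :
    ∃ ι : J → S, (Matrix.of fun i j => f j (ι i)).det ≠ 0 := by
  classical
  let v : S → (J → ℚ) := fun s j => f j s
  obtain ⟨κ, a, ha, hspan, hind⟩ := exists_linearIndependent' ℚ v
  -- the vectors span everything
  have htop : Submodule.span ℚ (Set.range v) = ⊤ := by
    by_contra hne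
    obtain ⟨φ, hφ0, hφ⟩ := Submodule.exists_dual_map_eq_bot_of_lt_top (lt_top_iff_ne_top.2 hne) inferInstance
    have h1 : ∀ s, φ (v s) = 0 := by
      intro s
      have h2 : φ (v s) ∈ Submodule.map φ (Submodule.span ℚ (Set.range v)) :=
        Submodule.mem_map_of_mem (Submodule.subset_span ⟨s, rfl⟩)
      rw [hφ] at h2
      exact (Submodule.mem_bot ℚ).1 h2
    have h3 := hli (fun j => φ (Pi.single j 1)) (fun s => by
      have h4 : v s = ∑ j, f j s • (Pi.single j 1 : J → ℚ) := by
        funext i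
        rw [Finset.sum_apply]
        simp only [Pi.smul_apply, Pi.single_apply, smul_eq_mul, mul_ite, mul_one, mul_zero]
        rw [Finset.sum_ite_eq Finset.univ i]
        simp [v]
      have h5 := h1 s
      rw [h4, map_sum] at h5
      rw [← h5]
      refine Finset.sum_congr rfl fun j _ => ?_
      rw [map_smul, smul_eq_mul, mul_comm])
    refine hφ0 (LinearMap.ext fun x => ?_)
    have h6 : x = ∑ j, x j • (Pi.single j 1 : J → ℚ) := by
      funext i
      rw [Finset.sum_apply]
      simp only [Pi.smul_apply, Pi.single_apply, smul_eq_mul, mul_ite, mul_one, mul_zero]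
      rw [Finset.sum_ite_eq Finset.univ i]
      simp
    rw [h6, map_sum]
    simp only [map_smul, LinearMap.zero_apply]
    refine Finset.sum_eq_zero fun j _ => ?_
    have h7 := congrFun h3 j
    simp only [Pi.zero_apply] at h7
    rw [h7, smul_zero]
  rw [htop] at hspan
  have hfin : Finite κ := hind.finite
  have := Fintype.ofFinite κ
  have hcard : Fintype.card κ = Fintype.card J := by
    have h1 := finrank_span_eq_card hind
    rw [hspan, finrank_top, Module.finrank_fintype_fun_eq_card] at h1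
    exact h1.symm
  let E : J ≃ κ := (Fintype.equivOfCardEq hcard).symm
  refine ⟨fun j => a (E j), ?_⟩
  have hind2 : LinearIndependent ℚ (fun i : J => v (a (E i))) := hind.comp E E.injective
  have h2 : LinearIndependent ℚ (Matrix.of fun i j => f j (a (E i))).row := hind2
  rw [Matrix.linearIndependent_rows_iff_isUnit, Matrix.isUnit_iff_isUnit_det] at h2
  exact h2.ne_zero

/-- Divisibility of the determinant by a prime power. -/
theorem det_dvd {J0 J1 : Type} [Fintype J0] [Fintype J1] [DecidableEq J0] [DecidableEq J1]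
    (M : Matrix (J0 ⊕ J1) (J0 ⊕ J1) ℤ) (p : ℤ) (e : J1 → ℕ)
    (he : ∀ j, ∃ lam : J0 → ℤ, ∀ i, p ^ e j ∣ M i (Sum.inr j) - ∑ j0, lam j0 * M i (Sum.inl j0)) :
    p ^ (∑ j, e j) ∣ M.det := by
  choose lam hlam using he
  choose g hg using hlam
  let N : Matrix (J0 ⊕ J1) (J0 ⊕ J1) ℤ := Matrix.of fun i j => Sum.elim (fun j0 => M i (Sum.inl j0)) (fun j1 => g j1 i) j
  let T : Matrix (J0 ⊕ J1) (J0 ⊕ J1) ℤ :=
    Matrix.fromBlocks 1 (Matrix.of fun j0 j1 => lam j1 j0) 0 (Matrix.diagonal fun j1 => p ^ e j1)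
  have hMN : M = N * T := by
    ext i j
    rw [Matrix.mul_apply, Fintype.sum_sum_type]
    cases j with
    | inl j0 =>
      simp only [N, T, Matrix.of_apply, Sum.elim_inl, Sum.elim_inr, Matrix.fromBlocks_apply₁₁,
        Matrix.fromBlocks_apply₂₁, Matrix.one_apply, Matrix.zero_apply, mul_ite, mul_one, mul_zero,
        Finset.sum_ite_eq', Finset.mem_univ, if_true, Finset.sum_const_zero, add_zero]
    | inr j1 =>
      simp only [N, T, Matrix.of_apply, Sum.elim_inl, Sum.elim_inr, Matrix.fromBlocks_apply₁₂,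
        Matrix.fromBlocks_apply₂₂, Matrix.diagonal_apply]
      have h1 := hg j1 i
      have h2 : ∑ x : J1, g x i * (if x = j1 then p ^ e x else 0) = g j1 i * p ^ e j1 := by
        rw [Finset.sum_eq_single j1]
        · rw [if_pos rfl]
        · intro x _ hx
          rw [if_neg hx, mul_zero]
        · intro h
          exact absurd (Finset.mem_univ _) h
      rw [h2]
      have h3 : ∑ x : J0, M i (Sum.inl x) * lam j1 x = ∑ x : J0, lam j1 x * M i (Sum.inl x) :=
        Finset.sum_congr rfl fun x _ => mul_comm _ _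
      rw [h3]
      linear_combination h1
  rw [hMN, Matrix.det_mul]
  have hT : T.det = p ^ (∑ j, e j) := by
    show (Matrix.fromBlocks _ _ _ _).det = _
    rw [Matrix.det_fromBlocks_zero₂₁, Matrix.det_one, one_mul, Matrix.det_diagonal, Finset.prod_pow_eq_pow_sum]
  rw [hT]
  exact Dvd.intro_left _ rfl

/-- The trivial upper bound. -/
theorem abs_det_le {J : Type} [Fintype J] [DecidableEq J] (M : Matrix J J ℤ) (B : J → ℝ)
    (hB : ∀ i j, |(M i j : ℝ)| ≤ Real.exp (B j)) :
    |(M.det : ℝ)| ≤ (Fintype.card J).factorial * Real.exp (∑ j, B j) := by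
  have h1 : (M.det : ℝ) = (M.map (Int.cast : ℤ → ℝ)).det := Int.cast_det M
  rw [h1, Matrix.det_apply]
  calc |∑ σ : Equiv.Perm J, Equiv.Perm.sign σ • ∏ i, (M.map (Int.cast : ℤ → ℝ)) (σ i) i|
      ≤ ∑ σ : Equiv.Perm J, |Equiv.Perm.sign σ • ∏ i, (M.map (Int.cast : ℤ → ℝ)) (σ i) i| :=
        Finset.abs_sum_le_sum_abs _ _
    _ ≤ ∑ _σ : Equiv.Perm J, Real.exp (∑ j, B j) := by
        refine Finset.sum_le_sum fun σ _ => ?_
        have h2 : |Equiv.Perm.sign σ • ∏ i, (M.map (Int.cast : ℤ → ℝ)) (σ i) i| =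
            ∏ i, |(M (σ i) i : ℝ)| := by
          rcases Int.units_eq_one_or (Equiv.Perm.sign σ) with h | h
          · rw [h, one_smul, Finset.abs_prod]
            rfl
          · rw [h, Units.neg_smul, one_smul, abs_neg, Finset.abs_prod]
            rfl
        rw [h2, Real.exp_sum]
        exact Finset.prod_le_prod (fun i _ => abs_nonneg _) fun i _ => hB _ _
    _ = _ := by
        rw [Finset.sum_const, Finset.card_univ, Fintype.card_perm, nsmul_eq_mul]

/-- **The interpolation determinant.** -/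
theorem det_main {S J0 J1 : Type} [Fintype J0] [Fintype J1]
    (f0 : J0 → S → ℤ) (f1 : J1 → S → ℤ)
    (hli : ∀ (a : J0 → ℚ) (b : J1 → ℚ), (∀ s, ∑ j, a j * (f0 j s : ℚ) + ∑ j, b j * (f1 j s : ℚ) = 0) → a = 0 ∧ b = 0)
    (Ps : Finset ℕ) (hPs : ∀ p ∈ Ps, p.Prime) (e : ℕ → J1 → ℕ)
    (he : ∀ p ∈ Ps, ∀ j, ∃ lam : J0 → ℤ, ∀ s, ((p : ℤ) ^ e p j) ∣ f1 j s - ∑ j0, lam j0 * f0 j0 s)
    (B0 : J0 → ℝ) (B1 : J1 → ℝ) (hB0 : ∀ j s, |(f0 j s : ℝ)| ≤ Real.exp (B0 j))
    (hB1 : ∀ j s, |(f1 j s : ℝ)| ≤ Real.exp (B1 j)) :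
    ∑ p ∈ Ps, (∑ j, (e p j : ℝ)) * Real.log p ≤
      Real.log ((Fintype.card J0 + Fintype.card J1).factorial) + (∑ j, B0 j + ∑ j, B1 j) := by
  classical
  let f : J0 ⊕ J1 → S → ℤ := Sum.elim f0 f1
  obtain ⟨ι, hι⟩ := exists_minor (J := J0 ⊕ J1) (fun j s => (f j s : ℚ)) (fun a ha => by
    have h1 := hli (fun j => a (Sum.inl j)) (fun j => a (Sum.inr j)) (fun s => by
      have := ha s
      rw [Fintype.sum_sum_type] at this
      exact this)
    funext j
    cases j with
    | inl j => exact congrFun h1.1 j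
    | inr j => exact congrFun h1.2 j)
  let M : Matrix (J0 ⊕ J1) (J0 ⊕ J1) ℤ := Matrix.of fun i j => f j (ι i)
  have hM0 : M.det ≠ 0 := by
    intro h
    refine hι ?_
    have h1 : (Matrix.of fun i j => (f j (ι i) : ℚ)) = M.map (Int.cast : ℤ → ℚ) := by
      ext i j
      rfl
    rw [h1, ← Int.cast_det, h, Int.cast_zero]
  have hdvd : ∀ p ∈ Ps, ((p : ℤ) ^ (∑ j, e p j)) ∣ M.det := by
    intro p hp
    refine det_dvd M p (e p) fun j => ?_
    obtain ⟨lam, hlam⟩ := he p hp j
    exact ⟨lam, fun i => hlam (ι i)⟩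
  have hprod : (∏ p ∈ Ps, ((p : ℤ) ^ (∑ j, e p j))) ∣ M.det := by
    refine Finset.prod_dvd_of_coprime ?_ hdvd
    intro p hp p' hp' hne
    refine IsCoprime.pow ?_
    exact Nat.Coprime.isCoprime ((Nat.coprime_primes (hPs p hp) (hPs p' hp')).2 hne)
  have hle : (∏ p ∈ Ps, ((p : ℝ) ^ (∑ j, e p j))) ≤ |(M.det : ℝ)| := by
    have h1 := Int.le_of_dvd (abs_pos.2 hM0) ((dvd_abs _ _).2 hprod)
    have h2 : ((∏ p ∈ Ps, ((p : ℤ) ^ (∑ j, e p j)) : ℤ) : ℝ) ≤ ((|M.det| : ℤ) : ℝ) := by exact_mod_cast h1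
    rw [Int.cast_abs, Int.cast_prod] at h2
    refine le_trans (le_of_eq ?_) h2
    refine Finset.prod_congr rfl fun p _ => ?_
    rw [Int.cast_pow, Int.cast_natCast]
  have hup := abs_det_le M (Sum.elim B0 B1) (fun i j => by
    cases j with
    | inl j => exact hB0 j _
    | inr j => exact hB1 j _)
  rw [Fintype.sum_sum_type, Fintype.card_sum] at hup
  have hpos : (0 : ℝ) < ∏ p ∈ Ps, ((p : ℝ) ^ (∑ j, e p j)) :=
    Finset.prod_pos fun p hp => pow_pos (Nat.cast_pos.2 (hPs p hp).pos) _
  have hlog := Real.log_le_log hpos (hle.trans hup)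
  rw [Real.log_mul (by positivity) (Real.exp_pos _).ne', Real.log_exp,
    Real.log_prod (fun p hp => (pow_pos (Nat.cast_pos.2 (hPs p hp).pos) _).ne')] at hlog
  refine le_trans (le_of_eq ?_) hlog
  refine Finset.sum_congr rfl fun p _ => ?_
  rw [Real.log_pow]
  push_cast
  rfl

end Pool.Agent.Helper89.ZD
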