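import Pool.Agent.Helper90.ZD.Defs

/-!
# ZD, piece P6a: the test polynomial is small off the arc
-/

set_option autoImplicit false

open Finset

namespace Pool.Agent.Helper89.ZD

open Pool.Agent.Helper90.ZD

/-- The coefficient of `z ^ j` in `z ^ a * (1 + z) ^ (N - a)`. -/
noncomputable def bc (N a j : ℕ) : ℝ := if a ≤ j then (Nat.choose (N - a) (j - a) : ℝ) else 0

theorem bc_rec (N a j : ℕ) (ha : a ≤ N) (hj : j ≤ N) :
    ((j : ℝ) - a) * bc N a j = ((N : ℝ) - a) * bc N (a + 1) j := by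
  unfold bc
  rcases lt_trichotomy j a with h | h | h
  · rw [if_neg (by omega), if_neg (by omega), mul_zero, mul_zero]
  · subst h
    rw [sub_self, zero_mul, if_neg (Nat.not_succ_le_self j), mul_zero]
  · rw [if_pos h.le, if_pos (by omega)]
    obtain ⟨i, rfl⟩ := Nat.exists_eq_add_of_lt h
    obtain ⟨b, rfl⟩ := Nat.exists_eq_add_of_le hj
    have e1 : a + i + 1 + b - a = (i + b) + 1 := by omega
    have e2 : a + i + 1 - a = i + 1 := by omega
    have e3 : a + i + 1 + b - (a + 1) = i + b := by omega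
    have e4 : a + i + 1 - (a + 1) = i := by omega
    rw [e1, e2, e3, e4]
    have h1 := Nat.add_one_mul_choose_eq (i + b) i
    have h2 : (((i + b + 1 : ℕ) : ℝ)) * (Nat.choose (i + b) i : ℝ) = (Nat.choose (i + b + 1) (i + 1) : ℝ) * ((i + 1 : ℕ) : ℝ) := by
      exact_mod_cast h1
    push_cast at h2 ⊢
    linear_combination (-1 : ℝ) * h2

theorem rep (M : ℕ) (E : Finset ℤ) (hE : ∀ l ∈ E, l ≠ 0) :
    ∃ c : ℕ → ℝ, (∑ a ∈ range (2 * M + 1), |c a|) ≤ ∏ l ∈ E, (1 + 3 * (M : ℝ) / |(l : ℝ)|) ∧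
      ∀ j ≤ 2 * M, (Nat.choose (2 * M) j : ℝ) * ∏ l ∈ E, (1 - ((j : ℝ) - M) / l) =
        ∑ a ∈ range (2 * M + 1), c a * bc (2 * M) a j := by
  classical
  induction E using Finset.induction_on with
  | empty =>
    refine ⟨fun a => if a = 0 then 1 else 0, ?_, ?_⟩
    · rw [prod_empty, sum_eq_single 0]
      · simp
      · intro a _ ha
        simp [ha]
      · intro h
        simp at h
    · intro j _
      rw [prod_empty, mul_one, sum_eq_single 0]
      · simp [bc]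
      · intro a _ ha
        simp [ha]
      · intro h
        simp at h
  | insert l E hl ih =>
    obtain ⟨c, hc1, hc2⟩ := ih fun l' hl' => hE l' (mem_insert_of_mem hl')
    have hl0 : (l : ℝ) ≠ 0 := by exact_mod_cast hE l (mem_insert_self l E)
    have hlpos : (0 : ℝ) < |(l : ℝ)| := abs_pos.2 hl0
    let sh : ℕ → ℝ := fun a => Nat.casesOn a 0 fun a' => ((2 * M : ℝ) - a') / l * c a'
    have sh0 : sh 0 = 0 := rfl
    have sh1 : ∀ a, sh (a + 1) = ((2 * M : ℝ) - a) / l * c a := fun a => rfl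
    have hlast : ((2 * M : ℝ) - ((2 * M : ℕ) : ℝ)) = 0 := by push_cast; ring
    refine ⟨fun a => (1 - ((a : ℝ) - M) / l) * c a - sh a, ?_, ?_⟩
    · rw [prod_insert hl]
      have h1 : ∑ a ∈ range (2 * M + 1), |sh a| ≤ ∑ a ∈ range (2 * M + 1), ((2 * M : ℝ) - a) / |(l : ℝ)| * |c a| := by
        rw [sum_range_succ', sh0, abs_zero, add_zero, sum_range_succ (n := 2 * M)]
        rw [hlast, zero_div, zero_mul, add_zero]
        refine sum_le_sum fun a ha => le_of_eq ?_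
        have ha' : (a : ℝ) ≤ 2 * M := by
          have := mem_range.1 ha
          exact_mod_cast this.le
        rw [sh1, abs_mul, abs_div, abs_of_nonneg (by linarith : (0 : ℝ) ≤ 2 * M - a)]
      calc ∑ a ∈ range (2 * M + 1), |(1 - ((a : ℝ) - M) / l) * c a - sh a|
          ≤ ∑ a ∈ range (2 * M + 1), ((1 + |(a : ℝ) - M| / |(l : ℝ)|) * |c a| + |sh a|) := by
            refine sum_le_sum fun a _ => ?_
            refine (abs_sub _ _).trans (add_le_add ?_ le_rfl)
            rw [abs_mul]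
            refine mul_le_mul_of_nonneg_right ?_ (abs_nonneg _)
            refine (abs_sub _ _).trans ?_
            rw [abs_one, abs_div]
        _ ≤ ∑ a ∈ range (2 * M + 1), ((1 + |(a : ℝ) - M| / |(l : ℝ)|) * |c a| +
              ((2 * M : ℝ) - a) / |(l : ℝ)| * |c a|) := by
            rw [sum_add_distrib, sum_add_distrib]
            exact add_le_add le_rfl h1
        _ ≤ ∑ a ∈ range (2 * M + 1), (1 + 3 * (M : ℝ) / |(l : ℝ)|) * |c a| := by
            refine sum_le_sum fun a ha => ?_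
            rw [← add_mul]
            refine mul_le_mul_of_nonneg_right ?_ (abs_nonneg _)
            rw [add_assoc, ← add_div]
            refine add_le_add le_rfl (div_le_div_of_nonneg_right ?_ hlpos.le)
            have ha' : (a : ℝ) ≤ 2 * M := by
              have := Nat.lt_succ_iff.1 (mem_range.1 ha)
              exact_mod_cast this
            have ha0 : (0 : ℝ) ≤ a := Nat.cast_nonneg _
            have hM0 : (0 : ℝ) ≤ M := Nat.cast_nonneg _
            rcases abs_cases ((a : ℝ) - M) with h | h <;> linarith [h.1, h.2]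
        _ = (1 + 3 * (M : ℝ) / |(l : ℝ)|) * ∑ a ∈ range (2 * M + 1), |c a| := by rw [mul_sum]
        _ ≤ _ := mul_le_mul_of_nonneg_left hc1 (by positivity)
    · intro j hj
      rw [prod_insert hl]
      have h2 : ∑ a ∈ range (2 * M + 1), sh a * bc (2 * M) a j =
          ∑ a ∈ range (2 * M + 1), ((2 * M : ℝ) - a) / l * c a * bc (2 * M) (a + 1) j := by
        rw [sum_range_succ', sh0, zero_mul, add_zero, sum_range_succ (n := 2 * M)]
        rw [hlast, zero_div, zero_mul, zero_mul, add_zero]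
      have h3 : ∀ a ∈ range (2 * M + 1), ((1 - ((a : ℝ) - M) / l) * c a - sh a) * bc (2 * M) a j =
          (1 - ((a : ℝ) - M) / l) * c a * bc (2 * M) a j - sh a * bc (2 * M) a j := fun a _ => by ring
      rw [sum_congr rfl h3, sum_sub_distrib, h2, ← sum_sub_distrib]
      calc (Nat.choose (2 * M) j : ℝ) * ((1 - ((j : ℝ) - M) / l) * ∏ l ∈ E, (1 - ((j : ℝ) - M) / l))
          = (1 - ((j : ℝ) - M) / l) * ((Nat.choose (2 * M) j : ℝ) * ∏ l ∈ E, (1 - ((j : ℝ) - M) / l)) := by ring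
        _ = ∑ a ∈ range (2 * M + 1), (1 - ((j : ℝ) - M) / l) * (c a * bc (2 * M) a j) := by
            rw [hc2 j hj, mul_sum]
        _ = _ := by
            refine sum_congr rfl fun a ha => ?_
            have h4 := bc_rec (2 * M) a j (Nat.lt_succ_iff.1 (mem_range.1 ha)) hj
            push_cast at h4
            have h5 : ((2 * M : ℝ) - a) / l * c a * bc (2 * M) (a + 1) j =
                c a / l * (((2 * M : ℝ) - a) * bc (2 * M) (a + 1) j) := by ring
            rw [h5, ← h4]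
            ring

/-- `∑ bc N a j z ^ j = z ^ a (1 + z) ^ (N - a)`. -/
theorem sum_bc (N a : ℕ) (ha : a ≤ N) (z : ℂ) :
    ∑ j ∈ range (N + 1), (bc N a j : ℂ) * z ^ j = z ^ a * (1 + z) ^ (N - a) := by
  have h1 : N + 1 = a + (N - a + 1) := by omega
  rw [h1, sum_range_add]
  have h2 : ∑ j ∈ range a, (bc N a j : ℂ) * z ^ j = 0 := by
    refine sum_eq_zero fun j hj => ?_
    have := mem_range.1 hj
    simp [bc, not_le.2 this]
  rw [h2, zero_add, add_comm (1 : ℂ) z, add_pow, mul_sum]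
  refine sum_congr rfl fun j _ => ?_
  have h3 : bc N a (a + j) = (Nat.choose (N - a) j : ℝ) := by
    simp [bc]
  rw [h3, one_pow, mul_one, pow_add]
  push_cast
  ring

/-- P6a. -/
theorem test_small (M : ℕ) (E : Finset ℤ) (hE : ∀ l ∈ E, l ≠ 0) (ρ : ℝ) (hρ : 1 / 2 ≤ ρ)
    (z : ℂ) (hz : ‖z‖ = 1) (hz' : ‖1 + z‖ ≤ 2 * ρ) :
    ‖∑ k ∈ Finset.Icc (-(M : ℤ)) M, (tc M E k : ℂ) * z ^ k‖
      ≤ ρ ^ (2 * M) * ∏ l ∈ E, (1 + 3 * (M : ℝ) / |(l : ℝ)|) := by
  obtain ⟨c, hc1, hc2⟩ := rep M E hE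
  have hz0 : z ≠ 0 := by
    intro h
    rw [h, norm_zero] at hz
    exact zero_ne_one hz
  -- the sum as a sum over `j = k + M`
  have h1 : ∑ k ∈ Finset.Icc (-(M : ℤ)) M, (tc M E k : ℂ) * z ^ k =
      ∑ j ∈ range (2 * M + 1), (tc M E ((j : ℤ) - M) : ℂ) * z ^ ((j : ℤ) - M) := by
    symm
    refine sum_bij' (fun j _ => (j : ℤ) - M) (fun k _ => (k + M).toNat) ?_ ?_ ?_ ?_ ?_
    · intro j hj
      have := mem_range.1 hj
      rw [mem_Icc]
      constructor <;> omega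
    · intro k hk
      rw [mem_Icc] at hk
      rw [mem_range]
      omega
    · intro j _
      simp
    · intro k hk
      rw [mem_Icc] at hk
      show (((k + M).toNat : ℕ) : ℤ) - M = k
      omega
    · intro j _
      rfl
  have h2 : ∀ j ∈ range (2 * M + 1), (tc M E ((j : ℤ) - M) : ℂ) * z ^ ((j : ℤ) - M) =
      (z ^ M)⁻¹ * (((4 : ℂ) ^ M)⁻¹ * ∑ a ∈ range (2 * M + 1), (c a : ℂ) * ((bc (2 * M) a j : ℂ) * z ^ j)) := by
    intro j hj
    have hj' : j ≤ 2 * M := Nat.lt_succ_iff.1 (mem_range.1 hj)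
    have h3 : tc M E ((j : ℤ) - M) = (∑ a ∈ range (2 * M + 1), c a * bc (2 * M) a j) / 4 ^ M := by
      rw [← hc2 j hj']
      unfold tc
      have h4 : ((M : ℤ) + ((j : ℤ) - M)).toNat = j := by omega
      rw [h4]
      push_cast
      ring
    rw [h3, zpow_sub₀ hz0, zpow_natCast, zpow_natCast]
    push_cast
    rw [div_eq_mul_inv, div_eq_mul_inv, sum_mul, mul_sum, sum_mul, mul_sum]
    refine sum_congr rfl fun a _ => ?_
    ring
  rw [h1, sum_congr rfl h2, ← mul_sum, ← mul_sum, sum_comm]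
  have h5 : ∑ a ∈ range (2 * M + 1), ∑ j ∈ range (2 * M + 1), (c a : ℂ) * ((bc (2 * M) a j : ℂ) * z ^ j) =
      ∑ a ∈ range (2 * M + 1), (c a : ℂ) * (z ^ a * (1 + z) ^ (2 * M - a)) := by
    refine sum_congr rfl fun a ha => ?_
    rw [← mul_sum, sum_bc (2 * M) a (Nat.lt_succ_iff.1 (mem_range.1 ha)) z]
  rw [h5, norm_mul, norm_mul, norm_inv, norm_inv, norm_pow, norm_pow, hz, one_pow, inv_one, one_mul]
  have h4norm : ‖(4 : ℂ)‖ = 4 := by simp
  rw [h4norm]
  have hρ0 : 0 ≤ 2 * ρ := by linarith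
  have h2ρ : 1 ≤ 2 * ρ := by linarith
  have h6 : ‖∑ a ∈ range (2 * M + 1), (c a : ℂ) * (z ^ a * (1 + z) ^ (2 * M - a))‖ ≤
      (2 * ρ) ^ (2 * M) * ∏ l ∈ E, (1 + 3 * (M : ℝ) / |(l : ℝ)|) := by
    calc ‖∑ a ∈ range (2 * M + 1), (c a : ℂ) * (z ^ a * (1 + z) ^ (2 * M - a))‖
        ≤ ∑ a ∈ range (2 * M + 1), ‖(c a : ℂ) * (z ^ a * (1 + z) ^ (2 * M - a))‖ := norm_sum_le _ _
      _ ≤ ∑ a ∈ range (2 * M + 1), (2 * ρ) ^ (2 * M) * |c a| := by
          refine sum_le_sum fun a _ => ?_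
          rw [norm_mul, norm_mul, norm_pow, norm_pow, hz, one_pow, one_mul, Complex.norm_real, Real.norm_eq_abs,
            mul_comm]
          refine mul_le_mul_of_nonneg_right ?_ (abs_nonneg _)
          calc ‖1 + z‖ ^ (2 * M - a) ≤ (2 * ρ) ^ (2 * M - a) := pow_le_pow_left₀ (norm_nonneg _) hz' _
            _ ≤ (2 * ρ) ^ (2 * M) := pow_le_pow_right₀ h2ρ (Nat.sub_le _ _)
      _ = (2 * ρ) ^ (2 * M) * ∑ a ∈ range (2 * M + 1), |c a| := by rw [mul_sum]
      _ ≤ _ := mul_le_mul_of_nonneg_left hc1 (pow_nonneg hρ0 _)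
  calc ((4 : ℝ) ^ M)⁻¹ * ‖∑ a ∈ range (2 * M + 1), (c a : ℂ) * (z ^ a * (1 + z) ^ (2 * M - a))‖
      ≤ ((4 : ℝ) ^ M)⁻¹ * ((2 * ρ) ^ (2 * M) * ∏ l ∈ E, (1 + 3 * (M : ℝ) / |(l : ℝ)|)) :=
        mul_le_mul_of_nonneg_left h6 (by positivity)
    _ = ρ ^ (2 * M) * ∏ l ∈ E, (1 + 3 * (M : ℝ) / |(l : ℝ)|) := by
        rw [mul_pow, pow_mul (2 : ℝ) 2 M, show (2 : ℝ) ^ 2 = 4 by norm_num, ← mul_assoc, ← mul_assoc,
          inv_mul_cancel₀ (by positivity), one_mul]

end Pool.Agent.Helper89.ZD
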